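import Pool.Agent.W70.HRC.Stm

set_option autoImplicit false

open Finset

namespace Pool.Agent.W356.HRC

open Pool.Agent.H361R2.PP
open Pool.Agent.W70.HR
open Pool.Agent.W70.HRC

open Classical in
theorem wdw_one (n K : ℕ) (H : Fin 5 → Fin K → ℕ)
    (h : 5 ≤ 4 * ((univ : Finset (Fin 5)).filter (fun g => ∃ i, (n + H g i).Prime)).card) :
    Wdw 1 n H := by
  have hcard : 1 < ((univ : Finset (Fin 5)).filter (fun g => ∃ i, (n + H g i).Prime)).card := by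
    omega
  obtain ⟨g₁, hg₁, g₂, hg₂, hne⟩ := Finset.one_lt_card.mp hcard
  obtain ⟨-, i₁, hi₁⟩ := Finset.mem_filter.mp hg₁
  obtain ⟨-, i₂, hi₂⟩ := Finset.mem_filter.mp hg₂
  obtain ⟨Q, hQ⟩ : ∃ Q : Finset ((Fin 5 × Fin K) × (Fin 5 × Fin K)), Q = univ.filter (fun p =>
    p.1.1 ≠ p.2.1 ∧ H p.1.1 p.1.2 ≤ H p.2.1 p.2.2 ∧ (n + H p.1.1 p.1.2).Prime ∧
      (n + H p.2.1 p.2.2).Prime) := ⟨_, rfl⟩
  have hmem : ∀ p, p ∈ Q ↔ p.1.1 ≠ p.2.1 ∧ H p.1.1 p.1.2 ≤ H p.2.1 p.2.2 ∧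
      (n + H p.1.1 p.1.2).Prime ∧ (n + H p.2.1 p.2.2).Prime := by
    intro p
    rw [hQ, Finset.mem_filter]
    simp
  have hQne : Q.Nonempty := by
    rcases le_total (H g₁ i₁) (H g₂ i₂) with hle | hle
    · exact ⟨((g₁, i₁), (g₂, i₂)), (hmem _).mpr ⟨hne, hle, hi₁, hi₂⟩⟩
    · exact ⟨((g₂, i₂), (g₁, i₁)), (hmem _).mpr ⟨hne.symm, hle, hi₂, hi₁⟩⟩
  obtain ⟨⟨⟨a, i⟩, ⟨b, j⟩⟩, hp, hmin⟩ := Finset.exists_min_image Q
    (fun p => H p.2.1 p.2.2 - H p.1.1 p.1.2) hQne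
  obtain ⟨hab, hle, hpa, hpb⟩ := (hmem _).mp hp
  simp only at hab hle hpa hpb hmin
  obtain ⟨c, hc⟩ : ∃ c : Fin 5 → Fin K, c = Function.update (fun _ => i) b j := ⟨_, rfl⟩
  have hca : c a = i := by rw [hc, Function.update_of_ne hab]
  have hcb : c b = j := by rw [hc, Function.update_self]
  refine ⟨{a, b}, c, Finset.card_pair hab, ?_, ?_⟩
  · intro g hg
    rw [Finset.mem_insert, Finset.mem_singleton] at hg
    rcases hg with rfl | rfl
    · rw [hca]; exact hpa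
    · rw [hcb]; exact hpb
  · intro g k hgk h1 h2
    have h1' : H a i ≤ H g k := by
      obtain ⟨g', hg', h⟩ := h1
      rw [Finset.mem_insert, Finset.mem_singleton] at hg'
      rcases hg' with rfl | rfl
      · rwa [hca] at h
      · rw [hcb] at h; exact hle.trans h
    have h2' : H g k ≤ H b j := by
      obtain ⟨g', hg', h⟩ := h2
      rw [Finset.mem_insert, Finset.mem_singleton] at hg'
      rcases hg' with rfl | rfl
      · rw [hca] at h; exact h.trans hle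
      · rwa [hcb] at h
    by_cases hga : g = a
    · have hm := hmin ((g, k), (b, j)) ((hmem _).mpr ⟨by rw [hga]; exact hab, h2', hgk, hpb⟩)
      simp only at hm
      refine ⟨a, by simp, ?_⟩
      rw [hca]
      omega
    · have hm := hmin ((a, i), (g, k)) ((hmem _).mpr ⟨fun h => hga h.symm, h1', hpa, hgk⟩)
      simp only at hm
      refine ⟨b, by simp, ?_⟩
      rw [hcb]
      omega

theorem pre1 : S_PRE1 := by
  classical
  intro hMT
  obtain ⟨K, hK, hat⟩ := hMT 5 (by norm_num)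
  refine ⟨K, hK, ?_⟩
  obtain ⟨δ, c, hδ, hδ8, hc, X₀, hX⟩ := hat 1 (5 * K + 1) one_pos
  refine ⟨δ, c, hδ, hδ8, hc, X₀, ?_⟩
  intro X hXX b hb
  obtain ⟨hV, hU, hH⟩ := hX X hXX b hb
  refine ⟨hV, hU, ?_⟩
  intro H hHB hinj
  refine (hH H hHB hinj).trans ?_
  have : hits δ X b 5 K H ≤ hitsP δ 1 X b 5 K H := by
    unfold hits hitsP
    apply Finset.card_le_card
    intro n hn
    rw [Finset.mem_filter] at hn ⊢
    obtain ⟨h1, h2, h3⟩ := hn
    refine ⟨h1, h2, wdw_one n K H ?_⟩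
    convert h3 using 3
  exact_mod_cast this

end Pool.Agent.W356.HRC
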